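import Mathlib
import Pool.Agent.H12.GJ.Final
import Pool.Agent.H15.GJ.Main
import Pool.Agent.H91.GJ.Dyn

/-! # Auxiliary facts: perfectness, orthogonality, energies -/

set_option autoImplicit false

namespace Pool.Agent.H11.INS

open Filter Topology Polynomial MeasureTheory Set
open Pool.Agent.H12.GJ (gr hr Kg K0 OP A0 B0 A0_pos OP_zero OP_one OP_succ)
open Pool.Agent.H15.GJ (psi chi m m0)

/-! ### Perfectness -/

lemma Kg_other (y : ℝ) : ∃ y' ∈ Kg, y' ≠ y := by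
  have h0 := Pool.Agent.H15.GJ.codeLim_mem_Kg 0
  have hI := Pool.Agent.H15.GJ.Kg_sub h0
  by_cases h : psi 0 (Pool.Agent.H15.GJ.codeLim 0) = y
  · refine ⟨psi 1 (Pool.Agent.H15.GJ.codeLim 0), Pool.Agent.H15.GJ.psi_mem_Kg h0 1, ?_⟩
    intro h1
    have h2 := (Pool.Agent.H15.GJ.psi_zero_mem hI).1
    have h3 := (Pool.Agent.H15.GJ.psi_one_mem hI).2
    rw [h] at h2; rw [h1] at h3
    linarith
  · exact ⟨_, Pool.Agent.H15.GJ.psi_mem_Kg h0 0, h⟩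

lemma Kg_near (n : ℕ) : ∀ y ∈ Kg, ∃ y' ∈ Kg, y' ≠ y ∧ |y' - y| ≤ 4 * (1 / 2) ^ n := by
  induction n with
  | zero =>
    intro y hy
    obtain ⟨y', h1, h2⟩ := Kg_other y
    refine ⟨y', h1, h2, ?_⟩
    have h3 := Pool.Agent.H12.GJ.Kg_sub hy
    have h4 := Pool.Agent.H12.GJ.Kg_sub h1
    rw [abs_le]
    constructor <;> norm_num <;> linarith [h3.1, h3.2, h4.1, h4.2]
  | succ n ih =>
    intro y hy
    have hg : gr y ∈ Kg := Pool.Agent.H12.GJ.gr_mem_Kg hy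
    obtain ⟨j, hj⟩ := Pool.Agent.H15.GJ.exists_branch (Pool.Agent.H15.GJ.Kg_sub hg)
    obtain ⟨z', h1, h2, h3⟩ := ih (gr y) hg
    refine ⟨psi j z', Pool.Agent.H15.GJ.psi_mem_Kg h1 j, ?_, ?_⟩
    · intro h
      apply h2
      rw [← Pool.Agent.H15.GJ.gr_psi (Pool.Agent.H15.GJ.Kg_sub h1) j, h]
    · have h4 := Pool.Agent.H15.GJ.psi_contract (Pool.Agent.H15.GJ.Kg_sub h1)
        (Pool.Agent.H15.GJ.Kg_sub hg) j
      rw [← hj] at h4
      calc |psi j z' - y| ≤ 1 / 2 * |z' - gr y| := h4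
        _ ≤ 1 / 2 * (4 * (1 / 2) ^ n) := by linarith
        _ = 4 * (1 / 2) ^ (n + 1) := by ring

lemma K0_nonempty : K0.Nonempty :=
  ⟨_, Pool.Agent.H15.GJ.chi_mem_K0 (Pool.Agent.H15.GJ.codeLim_mem_Kg 0) 0⟩

lemma exists_branch0 {z : ℝ} (hgz : hr z ∈ Pool.Agent.H15.GJ.I) : ∃ j, z = chi j (hr z) := by
  have h := Pool.Agent.H15.GJ.prod_chi hgz z
  rw [sub_self, zero_div] at h
  rcases mul_eq_zero.1 h with h | h
  · rcases mul_eq_zero.1 h with h | h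
    · exact ⟨0, sub_eq_zero.1 h⟩
    · exact ⟨1, sub_eq_zero.1 h⟩
  · exact ⟨2, sub_eq_zero.1 h⟩

lemma K0_perfect : Perfect K0 := by
  refine ⟨Pool.Agent.H12.GJ.K0_compact.isClosed, fun x hx => ?_⟩
  rw [accPt_iff_nhds]
  intro U hU
  have hx' : hr x ∈ Kg := hx
  obtain ⟨j, hj⟩ := exists_branch0 (Pool.Agent.H15.GJ.Kg_sub hx')
  have hU' : chi j ⁻¹' U ∈ 𝓝 (hr x) := by
    apply (Pool.Agent.H15.GJ.continuous_chi j).continuousAt
    rwa [← hj]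
  obtain ⟨δ, hδ, hb⟩ := Metric.mem_nhds_iff.1 hU'
  obtain ⟨n, hn⟩ := exists_pow_lt_of_lt_one (show 0 < δ / 4 by positivity)
    (show (1 / 2 : ℝ) < 1 by norm_num)
  obtain ⟨y', h1, h2, h3⟩ := Kg_near n (hr x) hx'
  refine ⟨chi j y', ⟨hb ?_, Pool.Agent.H15.GJ.chi_mem_K0 h1 j⟩, ?_⟩
  · rw [Metric.mem_ball, Real.dist_eq]
    linarith
  · intro h
    apply h2
    rw [← Pool.Agent.H15.GJ.hr_chi (Pool.Agent.H15.GJ.Kg_sub h1) j, h]

lemma K0_td : IsTotallyDisconnected K0 := fun _ hS hp => Pool.Agent.H12.GJ.K0_preconn hS hp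

/-! ### Orthogonality -/

lemma OP_monic (A B : ℕ → ℝ) (n : ℕ) :
    ((OP A B n).Monic ∧ (OP A B n).natDegree = n) ∧
      ((OP A B (n + 1)).Monic ∧ (OP A B (n + 1)).natDegree = n + 1) := by
  induction n with
  | zero =>
    rw [OP_zero, OP_one]
    exact ⟨⟨monic_one, natDegree_one⟩, monic_X_sub_C _, natDegree_X_sub_C _⟩
  | succ n ih =>
    obtain ⟨⟨m0, d0⟩, m1, d1⟩ := ih
    refine ⟨⟨m1, d1⟩, ?_⟩
    rw [OP_succ]
    have hm : ((X - C (B (n + 1))) * OP A B (n + 1)).Monic := (monic_X_sub_C _).mul m1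
    have hd : ((X - C (B (n + 1))) * OP A B (n + 1)).natDegree = n + 2 := by
      rw [(monic_X_sub_C _).natDegree_mul m1, natDegree_X_sub_C, d1]; ring
    have hlt : (C (A (n + 1)) * OP A B n).degree < ((X - C (B (n + 1))) * OP A B (n + 1)).degree := by
      rw [degree_eq_natDegree hm.ne_zero, hd]
      refine lt_of_le_of_lt (degree_mul_le _ _) ?_
      refine lt_of_le_of_lt (add_le_add degree_C_le le_rfl) ?_
      rw [zero_add, degree_eq_natDegree m0.ne_zero, d0]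
      exact_mod_cast (by omega : n < n + 2)
    refine ⟨hm.sub_of_left hlt, ?_⟩
    rw [natDegree_eq_of_degree_eq (degree_sub_eq_left_of_degree_lt hlt), hd]

lemma orth_m0 (n k : ℕ) (hnk : n ≠ k) :
    ∫ x, (OP A0 B0 n).eval x * (OP A0 B0 k).eval x ∂m0 = 0 := by
  have s0 : ∀ᵐ x ∂m0, x ∈ Set.Icc (-2 : ℝ) 2 := by
    filter_upwards [Pool.Agent.H15.GJ.m0_ae_K0] with x hx using Pool.Agent.H12.GJ.K0_sub hx
  have s1 : ∀ᵐ x ∂m, x ∈ Set.Icc (-19 / 10 : ℝ) (3 / 2) := Pool.Agent.H15.GJ.m_ae_I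
  have c1 := Pool.Agent.H15.GJ.pull_one
  have c2 := Pool.Agent.H15.GJ.pull_x
  have c3 := Pool.Agent.H15.GJ.pull_sq
  have a1 := Pool.Agent.H15.GJ.pull_one0
  have a2 := Pool.Agent.H15.GJ.pull_x0
  have a3 := Pool.Agent.H15.GJ.pull_sq0
  simp_rw [Pool.Agent.H12.GJ.gr_eq] at c1 c2 c3
  simp_rw [Pool.Agent.H12.GJ.hr_eq] at a1 a2 a3
  obtain ⟨g1, g2, g3⟩ := Pool.Agent.H12.GJ.ann_aux Pool.Agent.H12.GJ.renorm_g m m _ _ s1 c1 c2 c3
  have hg : ∀ k, 0 < k → ∫ y, (OP Pool.Agent.H12.GJ.AA Pool.Agent.H12.GJ.BB k).eval y ∂m = 0 := by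
    intro k
    induction k using Nat.strong_induction_on with
    | _ k ih =>
      intro hk
      rcases (show k % 3 = 0 ∨ k % 3 = 1 ∨ k % 3 = 2 by omega) with h | h | h
      · obtain ⟨n, hn⟩ : ∃ n, k = 3 * n := ⟨k / 3, by omega⟩
        rw [hn, g1, ih n (by omega) (by omega), mul_zero]
      · obtain ⟨n, hn⟩ : ∃ n, k = 3 * n + 1 := ⟨k / 3, by omega⟩
        rw [hn, g2]
      · obtain ⟨n, hn⟩ : ∃ n, k = 3 * n + 2 := ⟨k / 3, by omega⟩
        rw [hn, g3]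
  obtain ⟨f1, f2, f3⟩ := Pool.Agent.H12.GJ.ann_aux Pool.Agent.H12.GJ.renorm_0 m0 m _ _ s0 a1 a2 a3
  have hf : ∀ k, ∫ y, (OP A0 B0 (k + 1)).eval y ∂m0 = 0 := by
    intro k
    rcases (show (k + 1) % 3 = 0 ∨ (k + 1) % 3 = 1 ∨ (k + 1) % 3 = 2 by omega) with h | h | h
    · obtain ⟨n, hn⟩ : ∃ n, k + 1 = 3 * n := ⟨(k + 1) / 3, by omega⟩
      rw [hn, f1, hg n (by omega), mul_zero]
    · obtain ⟨n, hn⟩ : ∃ n, k + 1 = 3 * n + 1 := ⟨(k + 1) / 3, by omega⟩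
      rw [hn, f2]
    · obtain ⟨n, hn⟩ : ∃ n, k + 1 = 3 * n + 2 := ⟨(k + 1) / 3, by omega⟩
      rw [hn, f3]
  have horth := Pool.Agent.H12.GJ.orth_of_ann (A := A0) (B := B0) (fun q => ∫ y, q.eval y ∂m0)
    (fun p q => by
      simp only [eval_add]
      exact integral_add (Pool.Agent.H12.GJ.poly_integrable m0 _ _ s0 p)
        (Pool.Agent.H12.GJ.poly_integrable m0 _ _ s0 q))
    (fun c p => by
      simp only [eval_mul, eval_C]
      exact integral_const_mul _ _) hf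
  have := horth n k hnk
  simp only [eval_mul] at this
  exact this

end Pool.Agent.H11.INS
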