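import Mathlib

/-!
# Generalized Julia sets, equilibrium measures and recurrence coefficients (MP_cc1b6d_an)
-/

set_option autoImplicit false

namespace Pool.Agent.H11.INS

open Filter Topology Polynomial MeasureTheory Set
open scoped ENNReal

/-! ## Definitions -/

/-- The sequence `f 1, f 2, …` of complex polynomials (the value `f 0` is not used) is regular. -/
def Regular (f : ℕ → ℂ[X]) : Prop :=
  (∀ n, 1 ≤ n → 2 ≤ (f n).natDegree) ∧
  ∃ A₁ A₂ A₃ : ℝ, 0 < A₁ ∧ 0 < A₂ ∧ 0 < A₃ ∧ ∀ n, 1 ≤ n →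
    A₁ ≤ ‖(f n).leadingCoeff‖ ∧
    Real.log ‖(f n).leadingCoeff‖ ≤ A₃ * ((f n).natDegree : ℝ) ∧
    ∀ j, j < (f n).natDegree → ‖(f n).coeff j‖ ≤ A₂ * ‖(f n).leadingCoeff‖

/-- `F_n = f_n ∘ ⋯ ∘ f_1` on the Riemann sphere `ℂ ∪ {∞}`, with `F_n(∞) = ∞`. -/
noncomputable def comps (f : ℕ → ℂ[X]) : ℕ → OnePoint ℂ → OnePoint ℂ
  | 0 => id
  | n + 1 => fun p => OnePoint.map (fun z : ℂ => (f (n + 1)).eval z) (comps f n p)

/-- Stereographic projection of the Riemann sphere onto the unit sphere of the Euclidean space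
`ℂ × ℝ`. -/
noncomputable def stereo (p : OnePoint ℂ) : WithLp 2 (ℂ × ℝ) :=
  p.elim (WithLp.toLp 2 (0, 1)) fun z =>
    WithLp.toLp 2 (((2 / (1 + ‖z‖ ^ 2) : ℝ) : ℂ) * z, (‖z‖ ^ 2 - 1) / (1 + ‖z‖ ^ 2))

/-- The chordal distance. -/
noncomputable def chord (p q : OnePoint ℂ) : ℝ := dist (stereo p) (stereo q)

/-- The family `F 1, F 2, …` is normal on `U` (Montel): every sequence of its members has a
subsequence that converges, in the chordal distance, uniformly on the compact subsets of `U`. -/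
def NormalOn (F : ℕ → OnePoint ℂ → OnePoint ℂ) (U : Set (OnePoint ℂ)) : Prop :=
  ∀ φ : ℕ → ℕ, (∀ k, 1 ≤ φ k) → ∃ ψ : ℕ → ℕ, StrictMono ψ ∧ ∃ g : OnePoint ℂ → OnePoint ℂ,
    ∀ C ⊆ U, IsCompact C → ∀ ε > 0, ∃ N, ∀ k ≥ N, ∀ p ∈ C, chord (F (φ (ψ k)) p) (g p) < ε

/-- The Fatou set: the points near which the family `(F_n)_{n ≥ 1}` is normal. -/
def fatou (f : ℕ → ℂ[X]) : Set (OnePoint ℂ) :=
  {p | ∃ U : Set (OnePoint ℂ), IsOpen U ∧ p ∈ U ∧ NormalOn (comps f) U}

/-- The Julia set. -/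
def julia (f : ℕ → ℂ[X]) : Set (OnePoint ℂ) := (fatou f)ᶜ

/-- Cantor-type subsets of the line. -/
def IsCantor (K : Set ℝ) : Prop :=
  K.Nonempty ∧ IsCompact K ∧ Perfect K ∧ IsTotallyDisconnected K

/-- The logarithmic energy `∬ log (1 / |z - w|) dμ dμ` (positive part minus negative part; the
kernel is `+∞` on the diagonal). -/
noncomputable def energy (μ : Measure ℂ) : EReal :=
  ((∫⁻ z, ∫⁻ w, (if z = w then ⊤ else ENNReal.ofReal (Real.log (1 / ‖z - w‖))) ∂μ ∂μ : ℝ≥0∞) :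
    EReal) -
  ((∫⁻ z, ∫⁻ w, ENNReal.ofReal (Real.log ‖z - w‖) ∂μ ∂μ : ℝ≥0∞) : EReal)

/-- `μ` is the equilibrium measure of `E`: it is a probability measure carried by `E`, its
logarithmic energy is finite, and every other probability measure carried by `E` has larger
logarithmic energy. -/
def IsEquilibrium (E : Set ℂ) (μ : Measure ℂ) : Prop :=
  IsProbabilityMeasure μ ∧ μ Eᶜ = 0 ∧ energy μ < ⊤ ∧
    ∀ ν : Measure ℂ, IsProbabilityMeasure ν → ν Eᶜ = 0 → ν ≠ μ → energy μ < energy ν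

/-- `a 1, a 2, …` and `b 1, b 2, …` are the recurrence coefficients of the measure `m` on the line:
`x P_n = P_{n+1} + b_{n+1} P_n + a_n ^ 2 P_{n-1}` for its monic orthogonal polynomials. -/
def IsRecurrence (m : Measure ℝ) (a b : ℕ → ℝ) : Prop :=
  (∀ n, 1 ≤ n → 0 < a n) ∧ ∃ P : ℕ → ℝ[X],
    (∀ n, (P n).Monic ∧ (P n).natDegree = n) ∧
    (∀ n k, n ≠ k → ∫ x, (P n).eval x * (P k).eval x ∂m = 0) ∧
    X * P 0 = P 1 + C (b 1) * P 0 ∧
    ∀ n, 1 ≤ n → X * P n = P (n + 1) + C (b (n + 1)) * P n + C (a n ^ 2) * P (n - 1)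

/-- The translate `n ↦ d (n + k)` of a bounded two-sided sequence. -/
noncomputable def translate (d : BoundedContinuousFunction ℤ ℝ) (k : ℤ) :
    BoundedContinuousFunction ℤ ℝ :=
  d.compContinuous ⟨fun n => n + k, continuous_of_discreteTopology⟩

/-- A bounded two-sided sequence is almost periodic: its translates form a relatively compact
subset of the space of bounded two-sided sequences with the supremum norm. -/
def AlmostPeriodic (d : BoundedContinuousFunction ℤ ℝ) : Prop :=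
  IsCompact (closure (range (translate d)))

/-- The one-sided sequence `e 1, e 2, …` is asymptotically almost periodic. -/
def AsympAlmostPeriodic (e : ℕ → ℝ) : Prop :=
  ∃ d : BoundedContinuousFunction ℤ ℝ, AlmostPeriodic d ∧
    Tendsto (fun n : ℕ => |e n - d (n : ℤ)|) atTop (𝓝 0)

end Pool.Agent.H11.INS
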