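import Mathlib
import Pool.Agent.H15.GJ.Main
import Pool.Agent.H91.GJ.Dyn

/-! # Energies with values in the extended reals -/

set_option autoImplicit false

namespace Pool.Agent.H11.INS

open MeasureTheory Set ENNReal
open Pool.Agent.H12.GJ (K0 JS)
open Pool.Agent.H15.GJ (mu m0)
open Pool.Agent.H15.Pot (ker)

lemma JS_bdd : Bornology.IsBounded JS := by
  rw [Pool.Agent.H12.GJ.JS_eq]; exact Pool.Agent.H15.GJ.isBounded_image

lemma JS_real : JS ⊆ {z : ℂ | z.im = 0} := Pool.Agent.H12.GJ.JS_subset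

/-- positive part of the kernel -/
noncomputable def kp (z w : ℂ) : ℝ≥0∞ :=
  if z = w then ⊤ else ENNReal.ofReal (Real.log (1 / ‖z - w‖))

/-- negative part of the kernel -/
noncomputable def kn (z w : ℂ) : ℝ≥0∞ := ENNReal.ofReal (Real.log ‖z - w‖)

/-- logarithm of the constant -/
noncomputable def LD : ℝ≥0∞ := ENNReal.ofReal (Real.log (Metric.diam JS + 1))

lemma LD_ne_top : LD ≠ ⊤ := ENNReal.ofReal_ne_top

lemma D_one : 1 ≤ Metric.diam JS + 1 := by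
  have := Metric.diam_nonneg (s := JS)
  linarith

lemma dist_le {z w : ℂ} (hz : z ∈ JS) (hw : w ∈ JS) : ‖z - w‖ ≤ Metric.diam JS + 1 := by
  have := Metric.dist_le_diam_of_mem JS_bdd hz hw
  rw [dist_eq_norm] at this
  linarith

lemma kn_le {z w : ℂ} (hz : z ∈ JS) (hw : w ∈ JS) : kn z w ≤ LD := by
  unfold kn LD
  apply ENNReal.ofReal_le_ofReal
  rcases eq_or_lt_of_le (norm_nonneg (z - w)) with h | h
  · rw [← h, Real.log_zero]; exact Real.log_nonneg D_one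
  · exact Real.log_le_log h (dist_le hz hw)

lemma kp_add {z w : ℂ} (hz : z ∈ JS) (hw : w ∈ JS) (hne : w ≠ z) :
    kp z w + LD = ker JS z w + kn z w := by
  have hpos : 0 < ‖z - w‖ := norm_pos_iff.2 (sub_ne_zero.2 (Ne.symm hne))
  have hD : 0 ≤ Real.log (Metric.diam JS + 1) := Real.log_nonneg D_one
  have hle := Real.log_le_log hpos (dist_le hz hw)
  unfold kp ker kn LD
  rw [if_neg (Ne.symm hne)]
  have e1 : Real.log (1 / ‖z - w‖) = - Real.log ‖z - w‖ := by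
    rw [one_div, Real.log_inv]
  have e2 : Real.log ((Metric.diam JS + 1) / ‖z - w‖) =
      Real.log (Metric.diam JS + 1) - Real.log ‖z - w‖ :=
    Real.log_div (by linarith [D_one]) hpos.ne'
  rw [e1, e2]
  rcases le_total 0 (Real.log ‖z - w‖) with h | h
  · rw [ENNReal.ofReal_of_nonpos (show -Real.log ‖z - w‖ ≤ 0 by linarith), zero_add,
      ← ENNReal.ofReal_add (by linarith) h]
    congr 1; ring
  · rw [ENNReal.ofReal_of_nonpos h, add_zero, ← ENNReal.ofReal_add (by linarith) hD]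
    congr 1; ring

lemma measurable_ker1 (z : ℂ) : Measurable fun w => ker JS z w :=
  (Real.measurable_log.comp (measurable_const.div
      ((measurable_const.sub measurable_id).norm))).ennreal_ofReal

lemma measurable_ker2 : Measurable (fun p : ℂ × ℂ => ker JS p.1 p.2) :=
  (Real.measurable_log.comp (measurable_const.div
      ((measurable_fst.sub measurable_snd).norm))).ennreal_ofReal

section

variable (ν : Measure ℂ) [IsProbabilityMeasure ν] (hν : ν JSᶜ = 0)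
include hν

lemma neg_lt_top : ∫⁻ z, ∫⁻ w, kn z w ∂ν ∂ν ≠ ⊤ := by
  have h1 : ∀ᵐ z ∂ν, z ∈ JS := by rw [ae_iff]; exact hν
  refine ne_top_of_le_ne_top LD_ne_top ?_
  calc ∫⁻ z, ∫⁻ w, kn z w ∂ν ∂ν ≤ ∫⁻ _, ∫⁻ _, LD ∂ν ∂ν := by
        refine lintegral_mono_ae ?_
        filter_upwards [h1] with z hz
        refine lintegral_mono_ae ?_
        filter_upwards [h1] with w hw
        exact kn_le hz hw
    _ = LD := by simp

omit [IsProbabilityMeasure ν] hν in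
lemma pos_top {z0 : ℂ} (hz : ν {z0} ≠ 0) : ∫⁻ z, ∫⁻ w, kp z w ∂ν ∂ν = ⊤ := by
  have h1 : ∫⁻ w, kp z0 w ∂ν = ⊤ := by
    rw [eq_top_iff]
    calc (⊤ : ℝ≥0∞) = ⊤ * ν {z0} := (ENNReal.top_mul hz).symm
      _ = ∫⁻ _ in {z0}, ⊤ ∂ν := by rw [setLIntegral_const]
      _ = ∫⁻ w in {z0}, kp z0 w ∂ν := by
          refine setLIntegral_congr_fun (measurableSet_singleton z0) fun w hw => ?_
          rw [mem_singleton_iff.1 hw]
          unfold kp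
          simp
      _ ≤ _ := setLIntegral_le_lintegral _ _
  rw [eq_top_iff]
  calc (⊤ : ℝ≥0∞) = ⊤ * ν {z0} := (ENNReal.top_mul hz).symm
    _ = ∫⁻ _ in {z0}, ⊤ ∂ν := by rw [setLIntegral_const]
    _ = ∫⁻ z in {z0}, ∫⁻ w, kp z w ∂ν ∂ν := by
        refine setLIntegral_congr_fun (measurableSet_singleton z0) fun z hz => ?_
        rw [mem_singleton_iff.1 hz]
        exact h1.symm
    _ ≤ _ := setLIntegral_le_lintegral _ _

lemma pos_add [NullSingletonClass ν] : (∫⁻ z, ∫⁻ w, kp z w ∂ν ∂ν) + LD =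
    (∫⁻ z, ∫⁻ w, ker JS z w ∂ν ∂ν) + ∫⁻ z, ∫⁻ w, kn z w ∂ν ∂ν := by
  have h1 : ∀ᵐ z ∂ν, z ∈ JS := by rw [ae_iff]; exact hν
  have hm := measurable_ker2
  have hin : ∀ᵐ z ∂ν, (∫⁻ w, kp z w ∂ν) + LD = (∫⁻ w, ker JS z w ∂ν) + ∫⁻ w, kn z w ∂ν := by
    filter_upwards [h1] with z hz
    have h3 : ∀ᵐ w ∂ν, w ≠ z := by
      rw [ae_iff]
      simp
    have h4 : Measurable fun w => ker JS z w := measurable_ker1 z
    rw [← lintegral_add_left h4]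
    have h5 : (∫⁻ w, kp z w ∂ν) + LD = ∫⁻ w, (kp z w + LD) ∂ν := by
      rw [lintegral_add_right _ measurable_const]
      simp
    rw [h5]
    refine lintegral_congr_ae ?_
    filter_upwards [h1, h3] with w hw hne
    exact kp_add hz hw hne
  have h6 : (∫⁻ z, ∫⁻ w, kp z w ∂ν ∂ν) + LD = ∫⁻ z, ((∫⁻ w, kp z w ∂ν) + LD) ∂ν := by
    rw [lintegral_add_right _ measurable_const]
    simp
  have h7 : Measurable fun z => ∫⁻ w, ker JS z w ∂ν := hm.lintegral_prod_right'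
  rw [h6, ← lintegral_add_left h7]
  exact lintegral_congr_ae hin

end

lemma mu_zero : mu JSᶜ = 0 := Pool.Agent.H15.GJ.mu_compl Pool.Agent.H12.GJ.JS_eq

lemma T_mu_ne_top : ∫⁻ z, ∫⁻ w, ker JS z w ∂mu ∂mu ≠ ⊤ := by
  rw [Pool.Agent.H15.GJ.energy_mu Pool.Agent.H12.GJ.JS_eq]
  exact ENNReal.mul_ne_top (by simp) ENNReal.ofReal_ne_top

lemma T_min (ν : Measure ℂ) [IsProbabilityMeasure ν] [NullSingletonClass ν] (hν : ν JSᶜ = 0) :
    ∫⁻ z, ∫⁻ w, ker JS z w ∂mu ∂mu ≤ ∫⁻ z, ∫⁻ w, ker JS z w ∂ν ∂ν :=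
  Pool.Agent.H15.Pot.energy_min JS_bdd JS_real mu mu_zero
    (V := (3 : ℝ≥0∞)⁻¹ * ENNReal.ofReal (Pool.Agent.H15.GJ.AA + Pool.Agent.H15.GJ.c1 / 2))
    (ENNReal.mul_ne_top (by simp) ENNReal.ofReal_ne_top)
    (fun z hz => (Pool.Agent.H15.GJ.pot_mu Pool.Agent.H12.GJ.JS_eq hz).ge)
    (Pool.Agent.H15.GJ.energy_mu Pool.Agent.H12.GJ.JS_eq).le ν hν

lemma A_mu_ne_top : ∫⁻ z, ∫⁻ w, kp z w ∂mu ∂mu ≠ ⊤ := by
  have h := pos_add mu mu_zero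
  intro h1
  rw [h1, top_add] at h
  exact ENNReal.add_ne_top.2 ⟨T_mu_ne_top, neg_lt_top mu mu_zero⟩ h.symm

lemma cross (ν : Measure ℂ) [IsProbabilityMeasure ν] (hν : ν JSᶜ = 0) :
    (∫⁻ z, ∫⁻ w, kp z w ∂mu ∂mu) + ∫⁻ z, ∫⁻ w, kn z w ∂ν ∂ν ≤
      (∫⁻ z, ∫⁻ w, kp z w ∂ν ∂ν) + ∫⁻ z, ∫⁻ w, kn z w ∂mu ∂mu := by
  by_cases hat : ∃ z0, ν {z0} ≠ 0
  · obtain ⟨z0, h0⟩ := hat
    rw [pos_top ν h0, top_add]
    exact le_top
  · push Not at hat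
    have : NullSingletonClass ν := ⟨hat⟩
    rw [← ENNReal.add_le_add_iff_right LD_ne_top]
    have e1 := pos_add mu mu_zero
    have e2 := pos_add ν hν
    have e3 := T_min ν hν
    calc (∫⁻ z, ∫⁻ w, kp z w ∂mu ∂mu) + (∫⁻ z, ∫⁻ w, kn z w ∂ν ∂ν) + LD
        = ((∫⁻ z, ∫⁻ w, kp z w ∂mu ∂mu) + LD) + ∫⁻ z, ∫⁻ w, kn z w ∂ν ∂ν := by ring
      _ = (∫⁻ z, ∫⁻ w, ker JS z w ∂mu ∂mu) + (∫⁻ z, ∫⁻ w, kn z w ∂mu ∂mu) +
          ∫⁻ z, ∫⁻ w, kn z w ∂ν ∂ν := by rw [e1]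
      _ ≤ (∫⁻ z, ∫⁻ w, ker JS z w ∂ν ∂ν) + (∫⁻ z, ∫⁻ w, kn z w ∂mu ∂mu) +
          ∫⁻ z, ∫⁻ w, kn z w ∂ν ∂ν := by gcongr
      _ = ((∫⁻ z, ∫⁻ w, ker JS z w ∂ν ∂ν) + (∫⁻ z, ∫⁻ w, kn z w ∂ν ∂ν)) +
          ∫⁻ z, ∫⁻ w, kn z w ∂mu ∂mu := by ring
      _ = ((∫⁻ z, ∫⁻ w, kp z w ∂ν ∂ν) + LD) + ∫⁻ z, ∫⁻ w, kn z w ∂mu ∂mu := by rw [e2]
      _ = _ := by ring

lemma ereal_aux {a b c d : ℝ≥0∞} (ha : a ≠ ⊤) (hb : b ≠ ⊤) (hd : d ≠ ⊤) (h : a + d ≤ c + b) :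
    (a : EReal) - (b : EReal) ≤ (c : EReal) - (d : EReal) := by
  by_cases hc : c = ⊤
  · subst hc
    lift d to NNReal using hd
    simp [EReal.coe_nnreal_eq_coe_real]
  · lift a to NNReal using ha
    lift b to NNReal using hb
    lift c to NNReal using hc
    lift d to NNReal using hd
    have h2 : a + d ≤ c + b := by exact_mod_cast h
    have h3 : (a : ℝ) + d ≤ c + b := by exact_mod_cast h2
    simp only [EReal.coe_nnreal_eq_coe_real]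
    rw [← EReal.coe_sub, ← EReal.coe_sub, EReal.coe_le_coe_iff]
    linarith

lemma energy_fin : ((∫⁻ z, ∫⁻ w, kp z w ∂mu ∂mu : ℝ≥0∞) : EReal) -
    ((∫⁻ z, ∫⁻ w, kn z w ∂mu ∂mu : ℝ≥0∞) : EReal) < ⊤ := by
  have h1 := A_mu_ne_top
  have h2 := neg_lt_top mu mu_zero
  generalize (∫⁻ z, ∫⁻ w, kp z w ∂mu ∂mu) = a at *
  generalize (∫⁻ z, ∫⁻ w, kn z w ∂mu ∂mu) = b at *
  lift a to NNReal using h1
  lift b to NNReal using h2
  simp only [EReal.coe_nnreal_eq_coe_real]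
  rw [← EReal.coe_sub]
  exact EReal.coe_lt_top _

lemma energy_le (ν : Measure ℂ) [IsProbabilityMeasure ν] (hν : ν JSᶜ = 0) :
    ((∫⁻ z, ∫⁻ w, kp z w ∂mu ∂mu : ℝ≥0∞) : EReal) - ((∫⁻ z, ∫⁻ w, kn z w ∂mu ∂mu : ℝ≥0∞) : EReal) ≤
    ((∫⁻ z, ∫⁻ w, kp z w ∂ν ∂ν : ℝ≥0∞) : EReal) - ((∫⁻ z, ∫⁻ w, kn z w ∂ν ∂ν : ℝ≥0∞) : EReal) :=
  ereal_aux A_mu_ne_top (neg_lt_top mu mu_zero) (neg_lt_top ν hν) (cross ν hν)

end Pool.Agent.H11.INS
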