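import Mathlib
import Pool.Agent.H11.INS.En
import Pool.Agent.H11.INS.Base

/-! # Uniqueness of the measure of least energy -/

set_option autoImplicit false

namespace Pool.Agent.H11.INS

open MeasureTheory Set ENNReal Topology
open Pool.Agent.H12.GJ (K0 JS)
open Pool.Agent.H15.GJ (mu m0)
open Pool.Agent.H15.Pot (ker slab lenMeasure measurableSet_slab log_kernel)

/-- Two finite measures on the line whose right tails agree almost everywhere are equal. -/
lemma meas_eq_of_ae (p q : Measure ℝ) [IsFiniteMeasure p] [IsFiniteMeasure q] (α : ℝ)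
    (hα : ∀ x ≤ α, p (Ici x) = q (Ici x))
    (h : ∀ᵐ u : ℝ ∂volume, α ≤ u → p (Ici u) = q (Ici u)) : p = q := by
  apply Measure.ext_of_Ici
  intro x
  rcases le_or_gt x α with hx | hx
  · exact hα x hx
  · have hd := Measure.dense_of_ae h
    obtain ⟨u, hu, hmem, hlim⟩ := hd.exists_seq_strictMono_tendsto_of_lt hx
    have hI : (⋂ n, Ici (u n)) = Ici x := by
      ext y
      simp only [mem_iInter, mem_Ici]
      constructor
      · intro hy
        exact le_of_tendsto' hlim hy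
      · intro hy n
        exact (hmem n).1.2.le.trans hy
    have hanti : Antitone fun n => Ici (u n) := fun a b hab => Ici_subset_Ici.2 (hu.monotone hab)
    have key : ∀ (r : Measure ℝ) [IsFiniteMeasure r], r (Ici x) = ⨅ n, r (Ici (u n)) := by
      intro r _
      rw [← hI]
      exact hanti.measure_iInter (fun n => measurableSet_Ici.nullMeasurableSet)
        ⟨0, measure_ne_top _ _⟩
    rw [key p, key q]
    exact iInf_congr fun n => (hmem n).2 (hmem n).1.1.le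

section Abstract

variable {X Ω : Type} [MeasurableSpace X] [MeasurableSpace Ω]

lemma mixture_eq {ρ : Measure Ω} [SFinite ρ] {A : Set (Ω × X)} (hA : MeasurableSet A)
    (μ ν : Measure X) [SFinite μ] [SFinite ν] (k : X → X → ℝ≥0∞)
    (h : ∀ᵐ z ∂ν, ∀ᵐ w ∂μ, k z w = ρ {ω | (ω, z) ∈ A ∧ (ω, w) ∈ A}) :
    ∫⁻ z, ∫⁻ w, k z w ∂μ ∂ν =
      ∫⁻ ω, ν {z | (ω, z) ∈ A} * μ {w | (ω, w) ∈ A} ∂ρ := by
  have h1 : ∫⁻ z, ∫⁻ w, k z w ∂μ ∂ν =
      ∫⁻ z, ∫⁻ w, ∫⁻ ω, A.indicator 1 (ω, z) * A.indicator 1 (ω, w) ∂ρ ∂μ ∂ν := by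
    refine lintegral_congr_ae ?_
    filter_upwards [h] with z hz
    refine lintegral_congr_ae ?_
    filter_upwards [hz] with w hw
    rw [hw]
    have h2 : ∀ ω, A.indicator (1 : Ω × X → ℝ≥0∞) (ω, z) * A.indicator 1 (ω, w) =
        ({ω | (ω, z) ∈ A ∧ (ω, w) ∈ A} : Set Ω).indicator 1 ω := by
      intro ω
      by_cases h3 : (ω, z) ∈ A <;> by_cases h4 : (ω, w) ∈ A <;> simp [h3, h4]
    simp_rw [h2]
    rw [lintegral_indicator_one]
    exact (measurable_prodMk_right hA).inter (measurable_prodMk_right hA)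
  have hind : Measurable (A.indicator (1 : Ω × X → ℝ≥0∞)) :=
    measurable_one.indicator hA
  rw [h1]
  have h5 : ∀ z, ∫⁻ w, ∫⁻ ω, A.indicator (1 : Ω × X → ℝ≥0∞) (ω, z) * A.indicator 1 (ω, w) ∂ρ ∂μ =
      ∫⁻ ω, A.indicator (1 : Ω × X → ℝ≥0∞) (ω, z) * μ {w | (ω, w) ∈ A} ∂ρ := by
    intro z
    rw [lintegral_lintegral_swap]
    · refine lintegral_congr fun ω => ?_
      rw [lintegral_const_mul]
      · congr 1
        have : (fun w => A.indicator (1 : Ω × X → ℝ≥0∞) (ω, w)) =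
            ({w | (ω, w) ∈ A} : Set X).indicator 1 := by
          funext w
          by_cases h4 : (ω, w) ∈ A <;> simp [h4]
        rw [this]
        exact lintegral_indicator_one (measurable_prodMk_left hA)
      · exact hind.comp measurable_prodMk_left
    · apply Measurable.aemeasurable
      apply Measurable.mul
      · exact hind.comp (measurable_snd.prodMk measurable_const)
      · exact hind.comp (measurable_snd.prodMk measurable_fst)
  simp_rw [h5]
  rw [lintegral_lintegral_swap]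
  · refine lintegral_congr fun ω => ?_
    rw [lintegral_mul_const]
    · congr 1
      have : (fun w => A.indicator (1 : Ω × X → ℝ≥0∞) (ω, w)) =
          ({w | (ω, w) ∈ A} : Set X).indicator 1 := by
        funext w
        by_cases h4 : (ω, w) ∈ A <;> simp [h4]
      rw [this]
      exact lintegral_indicator_one (measurable_prodMk_left hA)
    · exact hind.comp measurable_prodMk_left
  · apply Measurable.aemeasurable
    apply Measurable.mul
    · exact hind.comp (measurable_snd.prodMk measurable_fst)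
    · exact (measurable_measure_prodMk_left hA).comp measurable_snd

/-- Equality in the Cauchy-Schwarz inequality. -/
lemma ae_eq_of_sq {ρ : Measure Ω} (a b : Ω → ℝ≥0∞) (ha : Measurable a) (hb : Measurable b)
    (ha1 : ∀ ω, a ω ≠ ⊤) (hb1 : ∀ ω, b ω ≠ ⊤) {V : ℝ≥0∞} (hV : V ≠ ⊤)
    (h1 : ∫⁻ ω, a ω * a ω ∂ρ ≤ V) (h2 : ∫⁻ ω, b ω * b ω ∂ρ ≤ V) (h3 : V ≤ ∫⁻ ω, a ω * b ω ∂ρ) :
    ∀ᵐ ω ∂ρ, a ω = b ω := by
  let c : Ω → ℝ≥0∞ := fun ω => ENNReal.ofReal (((a ω).toReal - (b ω).toReal) ^ 2)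
  have hc : Measurable c := ((ha.ennreal_toReal.sub hb.ennreal_toReal).pow_const 2).ennreal_ofReal
  have hpt : ∀ ω, a ω * a ω + b ω * b ω = 2 * (a ω * b ω) + c ω := by
    intro ω
    have e1 : a ω = ENNReal.ofReal (a ω).toReal := (ENNReal.ofReal_toReal (ha1 ω)).symm
    have e2 : b ω = ENNReal.ofReal (b ω).toReal := (ENNReal.ofReal_toReal (hb1 ω)).symm
    have n1 : 0 ≤ (a ω).toReal := ENNReal.toReal_nonneg
    have n2 : 0 ≤ (b ω).toReal := ENNReal.toReal_nonneg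
    show _ = _ + ENNReal.ofReal (((a ω).toReal - (b ω).toReal) ^ 2)
    conv_lhs => rw [e1, e2]
    conv_rhs => rw [e1, e2]
    rw [ENNReal.toReal_ofReal n1, ENNReal.toReal_ofReal n2, ← ENNReal.ofReal_mul n1,
      ← ENNReal.ofReal_mul n2, ← ENNReal.ofReal_mul n1, ← ENNReal.ofReal_add (by positivity)
      (by positivity), show (2 : ℝ≥0∞) = ENNReal.ofReal 2 by simp,
      ← ENNReal.ofReal_mul (by norm_num), ← ENNReal.ofReal_add (by positivity) (by positivity)]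
    congr 1
    ring
  have hint : (∫⁻ ω, a ω * a ω ∂ρ) + ∫⁻ ω, b ω * b ω ∂ρ =
      2 * (∫⁻ ω, a ω * b ω ∂ρ) + ∫⁻ ω, c ω ∂ρ := by
    have m1 : Measurable fun ω => a ω * a ω := ha.mul ha
    have m2 : Measurable fun ω => a ω * b ω := ha.mul hb
    have m3 : Measurable fun ω => 2 * (a ω * b ω) := m2.const_mul 2
    rw [← lintegral_add_left m1, ← lintegral_const_mul _ m2, ← lintegral_add_left m3]
    exact lintegral_congr hpt
  have hle : V + V + ∫⁻ ω, c ω ∂ρ ≤ V + V + 0 := by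
    calc V + V + ∫⁻ ω, c ω ∂ρ = 2 * V + ∫⁻ ω, c ω ∂ρ := by rw [two_mul]
      _ ≤ 2 * (∫⁻ ω, a ω * b ω ∂ρ) + ∫⁻ ω, c ω ∂ρ := by gcongr
      _ = _ := hint.symm
      _ ≤ V + V := add_le_add h1 h2
      _ = V + V + 0 := (add_zero _).symm
  have h0 : ∫⁻ ω, c ω ∂ρ = 0 :=
    le_antisymm ((ENNReal.add_le_add_iff_left (ENNReal.add_ne_top.2 ⟨hV, hV⟩)).1 hle) zero_le
  rw [lintegral_eq_zero_iff hc] at h0
  filter_upwards [h0] with ω hω
  have h4 : ENNReal.ofReal (((a ω).toReal - (b ω).toReal) ^ 2) = 0 := hω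
  rw [ENNReal.ofReal_eq_zero] at h4
  have h5 : (a ω).toReal - (b ω).toReal = 0 := by
    have := sq_nonneg ((a ω).toReal - (b ω).toReal)
    exact pow_eq_zero_iff (two_ne_zero) |>.1 (le_antisymm h4 this)
  exact (ENNReal.toReal_eq_toReal_iff' (ha1 ω) (hb1 ω)).1 (sub_eq_zero.1 h5)

end Abstract

/-- The set of all `((s, u), z)` with the real part of `z` in `[u, u + s)`. -/
def slabC : Set ((ℝ × ℝ) × ℂ) := {p | (p.1, p.2.re) ∈ slab}

lemma measurableSet_slabC : MeasurableSet slabC :=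
  measurableSet_slab.preimage (measurable_fst.prodMk (Complex.measurable_re.comp measurable_snd))

lemma ker_ae (μ ν : Measure ℂ) [NullSingletonClass μ] (hμ : μ JSᶜ = 0) (hν : ν JSᶜ = 0) :
    ∀ᵐ z ∂ν, ∀ᵐ w ∂μ, ker JS z w =
      ((lenMeasure (Metric.diam JS + 1)).prod volume) {ω | (ω, z) ∈ slabC ∧ (ω, w) ∈ slabC} := by
  have h1 : ∀ᵐ z ∂ν, z ∈ JS := by rw [ae_iff]; exact hν
  have h2 : ∀ᵐ z ∂μ, z ∈ JS := by rw [ae_iff]; exact hμ
  filter_upwards [h1] with z hz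
  have h3 : ∀ᵐ w ∂μ, w ≠ z := by
    rw [ae_iff]
    simp
  filter_upwards [h2, h3] with w hw hwz
  have hnorm : ‖z - w‖ = |z.re - w.re| := by
    have h4 : z - w = ((z.re - w.re : ℝ) : ℂ) := by
      apply Complex.ext
      · simp
      · have h5 : z.im = 0 := JS_real hz
        have h6 : w.im = 0 := JS_real hw
        simp [h5, h6]
    rw [h4, Complex.norm_real, Real.norm_eq_abs]
  have hne : z.re ≠ w.re := by
    intro h
    apply hwz
    have h5 : z.im = 0 := JS_real hz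
    have h6 : w.im = 0 := JS_real hw
    exact Complex.ext h.symm (by rw [h5, h6])
  have hle : |z.re - w.re| ≤ Metric.diam JS + 1 := by
    rw [← hnorm]
    exact dist_le hz hw
  unfold Pool.Agent.H15.Pot.ker
  rw [hnorm]
  exact (log_kernel hne hle).symm

/-- The minimal energy. -/
noncomputable def VV : ℝ≥0∞ := (3 : ℝ≥0∞)⁻¹ * ENNReal.ofReal (Pool.Agent.H15.GJ.AA + Pool.Agent.H15.GJ.c1 / 2)

lemma VV_ne_top : VV ≠ ⊤ := ENNReal.mul_ne_top (by simp) ENNReal.ofReal_ne_top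

lemma T_mu : ∫⁻ z, ∫⁻ w, ker JS z w ∂mu ∂mu = VV :=
  Pool.Agent.H15.GJ.energy_mu Pool.Agent.H12.GJ.JS_eq

lemma cross_mu (ν : Measure ℂ) [IsProbabilityMeasure ν] (hν : ν JSᶜ = 0) :
    ∫⁻ z, ∫⁻ w, ker JS z w ∂mu ∂ν = VV := by
  have h1 : ∀ᵐ z ∂ν, z ∈ JS := by rw [ae_iff]; exact hν
  have h2 : ∫⁻ z, ∫⁻ w, ker JS z w ∂mu ∂ν = ∫⁻ _, VV ∂ν := by
    refine lintegral_congr_ae ?_
    filter_upwards [h1] with z hz using Pool.Agent.H15.GJ.pot_mu Pool.Agent.H12.GJ.JS_eq hz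
  rw [h2]
  simp

lemma slices (ν : Measure ℂ) [IsProbabilityMeasure ν] [NullSingletonClass ν] (hν : ν JSᶜ = 0)
    (hT : ∫⁻ z, ∫⁻ w, ker JS z w ∂ν ∂ν ≤ VV) :
    ∀ᵐ u : ℝ ∂volume, ν {z | ((Metric.diam JS + 1, u), z) ∈ slabC} =
      mu {z | ((Metric.diam JS + 1, u), z) ∈ slabC} := by
  set D := Metric.diam JS + 1 with hD
  have hD0 : 0 < D := by have := D_one; linarith
  have e1 := mixture_eq measurableSet_slabC ν ν (ker JS) (ker_ae ν ν hν hν)
  have e2 := mixture_eq measurableSet_slabC mu mu (ker JS) (ker_ae mu mu mu_zero mu_zero)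
  have e3 := mixture_eq measurableSet_slabC mu ν (ker JS) (ker_ae mu ν mu_zero hν)
  rw [e1] at hT
  rw [T_mu] at e2
  rw [cross_mu ν hν] at e3
  have h := ae_eq_of_sq (ρ := (lenMeasure D).prod volume)
    (fun ω => ν {z | (ω, z) ∈ slabC}) (fun ω => mu {z | (ω, z) ∈ slabC})
    (measurable_measure_prodMk_left measurableSet_slabC)
    (measurable_measure_prodMk_left measurableSet_slabC)
    (fun ω => measure_ne_top _ _) (fun ω => measure_ne_top _ _) VV_ne_top hT e2.ge e3.le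
  have h' := Measure.ae_ae_of_ae_prod h
  unfold lenMeasure at h'
  rw [ae_add_measure_iff] at h'
  have h'' := h'.2
  rw [Measure.ae_ennreal_smul_measure_eq (by positivity), ae_dirac_eq] at h''
  exact h''

theorem uniq (ν : Measure ℂ) [IsProbabilityMeasure ν] [NullSingletonClass ν] (hν : ν JSᶜ = 0)
    (hT : ∫⁻ z, ∫⁻ w, ker JS z w ∂ν ∂ν ≤ VV) : ν = mu := by
  have hs := slices ν hν hT
  obtain ⟨α, hα, hmin⟩ := Pool.Agent.H12.GJ.K0_compact.exists_isLeast K0_nonempty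
  have hJ : ∀ z ∈ JS, α ≤ z.re ∧ z.re < α + (Metric.diam JS + 1) := by
    intro z hz
    have hz' := hz
    rw [Pool.Agent.H12.GJ.JS_eq] at hz'
    obtain ⟨x, hx, rfl⟩ := hz'
    have hα' : (α : ℂ) ∈ JS := by rw [Pool.Agent.H12.GJ.JS_eq]; exact ⟨α, hα, rfl⟩
    have h1 := Metric.dist_le_diam_of_mem JS_bdd hz hα'
    rw [dist_eq_norm, ← Complex.ofReal_sub, Complex.norm_real, Real.norm_eq_abs] at h1
    have h2 := (abs_le.1 h1).2
    rw [Complex.ofReal_re]
    exact ⟨hmin hx, by linarith⟩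
  have hmap : ∀ (r : Measure ℂ) [IsProbabilityMeasure r], r JSᶜ = 0 →
      (∀ x ≤ α, (r.map Complex.re) (Ici x) = 1) ∧
      (∀ u, α ≤ u → (r.map Complex.re) (Ici u) =
        r {z | ((Metric.diam JS + 1, u), z) ∈ slabC}) := by
    intro r _ hr
    have h1 : ∀ᵐ z ∂r, z ∈ JS := by rw [ae_iff]; exact hr
    constructor
    · intro x hx
      rw [Measure.map_apply Complex.measurable_re measurableSet_Ici]
      have : (Complex.re ⁻¹' Ici x : Set ℂ) =ᵐ[r] (univ : Set ℂ) := by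
        filter_upwards [h1] with z hz
        apply propext
        exact ⟨fun _ => trivial, fun _ => hx.trans (hJ z hz).1⟩
      rw [measure_congr this, measure_univ]
    · intro u hu
      rw [Measure.map_apply Complex.measurable_re measurableSet_Ici]
      apply measure_congr
      filter_upwards [h1] with z hz
      apply propext
      have h2 := (hJ z hz).2
      constructor
      · intro h3
        have h4 : u ≤ z.re := h3
        exact ⟨h4, by show z.re < u + (Metric.diam JS + 1); linarith⟩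
      · intro h3
        exact h3.1
  obtain ⟨a1, a2⟩ := hmap ν hν
  obtain ⟨b1, b2⟩ := hmap mu mu_zero
  have hre : ν.map Complex.re = mu.map Complex.re := by
    have : IsProbabilityMeasure (ν.map Complex.re) :=
      Measure.isProbabilityMeasure_map Complex.measurable_re.aemeasurable
    have : IsProbabilityMeasure (mu.map Complex.re) :=
      Measure.isProbabilityMeasure_map Complex.measurable_re.aemeasurable
    refine meas_eq_of_ae _ _ α (fun x hx => by rw [a1 x hx, b1 x hx]) ?_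
    filter_upwards [hs] with u hu hαu
    rw [a2 u hαu, b2 u hαu, hu]
  have hback : ∀ (r : Measure ℂ) [IsProbabilityMeasure r], r JSᶜ = 0 →
      (r.map Complex.re).map Complex.ofReal = r := by
    intro r _ hr
    have h1 : ∀ᵐ z ∂r, z ∈ JS := by rw [ae_iff]; exact hr
    rw [Measure.map_map Complex.continuous_ofReal.measurable Complex.measurable_re]
    have : (Complex.ofReal ∘ Complex.re) =ᵐ[r] id := by
      filter_upwards [h1] with z hz
      have h5 : z.im = 0 := JS_real hz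
      apply Complex.ext
      · simp
      · simp [h5]
    rw [Measure.map_congr this, Measure.map_id]
  rw [← hback ν hν, hre, hback mu mu_zero]

lemma ereal_aux2 {a b c d : ℝ≥0∞} (ha : a ≠ ⊤) (hb : b ≠ ⊤) (hd : d ≠ ⊤)
    (h : (c : EReal) - (d : EReal) ≤ (a : EReal) - (b : EReal)) : c ≠ ⊤ ∧ c + b ≤ a + d := by
  lift a to NNReal using ha
  lift b to NNReal using hb
  lift d to NNReal using hd
  simp only [EReal.coe_nnreal_eq_coe_real] at h
  rw [← EReal.coe_sub] at h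
  by_cases hc : c = ⊤
  · subst hc
    have h3 : ((⊤ : ℝ≥0∞) : EReal) - ((d : ℝ) : EReal) = ⊤ := by simp
    rw [h3, top_le_iff] at h
    exact absurd h (EReal.coe_ne_top _)
  · refine ⟨hc, ?_⟩
    lift c to NNReal using hc
    simp only [EReal.coe_nnreal_eq_coe_real] at h
    rw [← EReal.coe_sub, EReal.coe_le_coe_iff] at h
    have h2 : (c : ℝ) + b ≤ a + d := by linarith
    exact_mod_cast h2

/-- Uniqueness of the equilibrium measure. -/
theorem energy_uniq (ν : Measure ℂ) [IsProbabilityMeasure ν] (hν : ν JSᶜ = 0)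
    (h : ((∫⁻ z, ∫⁻ w, kp z w ∂ν ∂ν : ℝ≥0∞) : EReal) -
      ((∫⁻ z, ∫⁻ w, kn z w ∂ν ∂ν : ℝ≥0∞) : EReal) ≤
      ((∫⁻ z, ∫⁻ w, kp z w ∂mu ∂mu : ℝ≥0∞) : EReal) -
      ((∫⁻ z, ∫⁻ w, kn z w ∂mu ∂mu : ℝ≥0∞) : EReal)) : ν = mu := by
  have hB := neg_lt_top mu mu_zero
  have hC := neg_lt_top ν hν
  obtain ⟨h1, h2⟩ := ereal_aux2 A_mu_ne_top hB hC h
  have hna : NullSingletonClass ν := by
    refine ⟨fun z => ?_⟩
    by_contra h0
    exact h1 (pos_top ν h0)
  apply uniq ν hν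
  have e1 := pos_add mu mu_zero
  have e2 := pos_add ν hν
  rw [T_mu] at e1
  have hfin : (∫⁻ z, ∫⁻ w, kn z w ∂mu ∂mu) + ∫⁻ z, ∫⁻ w, kn z w ∂ν ∂ν ≠ ⊤ :=
    ENNReal.add_ne_top.2 ⟨hB, hC⟩
  rw [← ENNReal.add_le_add_iff_right hfin]
  calc (∫⁻ z, ∫⁻ w, ker JS z w ∂ν ∂ν) + ((∫⁻ z, ∫⁻ w, kn z w ∂mu ∂mu) +
        ∫⁻ z, ∫⁻ w, kn z w ∂ν ∂ν)
      = ((∫⁻ z, ∫⁻ w, ker JS z w ∂ν ∂ν) + ∫⁻ z, ∫⁻ w, kn z w ∂ν ∂ν) +
        ∫⁻ z, ∫⁻ w, kn z w ∂mu ∂mu := by ring
    _ = ((∫⁻ z, ∫⁻ w, kp z w ∂ν ∂ν) + ∫⁻ z, ∫⁻ w, kn z w ∂mu ∂mu) + LD := by rw [← e2]; ring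
    _ ≤ ((∫⁻ z, ∫⁻ w, kp z w ∂mu ∂mu) + ∫⁻ z, ∫⁻ w, kn z w ∂ν ∂ν) + LD := by gcongr
    _ = ((∫⁻ z, ∫⁻ w, kp z w ∂mu ∂mu) + LD) + ∫⁻ z, ∫⁻ w, kn z w ∂ν ∂ν := by ring
    _ = _ := by rw [e1]; ring

end Pool.Agent.H11.INS
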