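import Mathlib
import Pool.Agent.H11.INS.Defs
import Pool.Agent.H11.INS.Base
import Pool.Agent.H11.INS.En
import Pool.Agent.H11.INS.Uniq

/-! # The example: normality, non-normality and assembly -/

set_option autoImplicit false

namespace Pool.Agent.H11.INS

open Filter Topology Polynomial MeasureTheory Set
open scoped ENNReal

/-! ## Almost periods -/

lemma translate_apply (d : BoundedContinuousFunction ℤ ℝ) (k n : ℤ) :
    translate d k n = d (n + k) := rfl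

lemma bohr {d : BoundedContinuousFunction ℤ ℝ} (h : AlmostPeriodic d) (ε : ℝ) (hε : 0 < ε) :
    ∃ L : ℕ, ∀ m : ℤ, ∃ τ : ℤ, m ≤ τ ∧ τ ≤ m + (L : ℤ) ∧ ∀ k : ℤ, |d (k + τ) - d k| < ε := by
  have hT : TotallyBounded (range (translate d)) := h.totallyBounded.subset subset_closure
  obtain ⟨t, ht, hfin, hcov⟩ := Metric.finite_approx_of_totallyBounded hT (ε / 2) (by positivity)
  have hc : ∀ y ∈ t, ∃ k, translate d k = y := fun y hy => ht hy
  choose! c hc using hc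
  obtain ⟨B, hB⟩ := (hfin.image (fun y => (c y).natAbs)).bddAbove
  have hB' : ∀ y ∈ t, (c y).natAbs ≤ B := fun y hy => hB ⟨y, hy, rfl⟩
  refine ⟨2 * B, fun m => ?_⟩
  have h1 := hcov ⟨m + B, rfl⟩
  simp only [mem_iUnion, Metric.mem_ball] at h1
  obtain ⟨y, hy, hd⟩ := h1
  have h2 := hB' y hy
  refine ⟨m + B - c y, by omega, by push_cast; omega, fun k => ?_⟩
  rw [← hc y hy] at hd
  have h3 := BoundedContinuousFunction.dist_coe_le_dist (f := translate d (m + B))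
    (g := translate d (c y)) (k - c y)
  rw [translate_apply, translate_apply, Real.dist_eq] at h3
  rw [show k + (m + B - c y) = k - c y + (m + B) by ring]
  rw [show k - c y + c y = k by ring] at h3
  linarith

/-! ## The chordal distance -/

lemma chord_infty (w : ℂ) : chord (w : OnePoint ℂ) OnePoint.infty = 2 / √(1 + ‖w‖ ^ 2) := by
  have hp : 0 < 1 + ‖w‖ ^ 2 := by positivity
  unfold chord stereo
  rw [WithLp.prod_dist_eq_of_L2]
  simp only [OnePoint.elim_some, OnePoint.elim_infty, Real.dist_eq]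
  have e1 : ‖((2 / (1 + ‖w‖ ^ 2) : ℝ) : ℂ) * w‖ ^ 2 = 4 * ‖w‖ ^ 2 / (1 + ‖w‖ ^ 2) ^ 2 := by
    rw [norm_mul, Complex.norm_real, Real.norm_eq_abs, mul_pow, sq_abs]
    field_simp
    ring
  have e2 : |(‖w‖ ^ 2 - 1) / (1 + ‖w‖ ^ 2) - 1| ^ 2 = 4 / (1 + ‖w‖ ^ 2) ^ 2 := by
    rw [sq_abs]
    field_simp
    ring
  have e3 : dist (((2 / (1 + ‖w‖ ^ 2) : ℝ) : ℂ) * w) 0 = ‖((2 / (1 + ‖w‖ ^ 2) : ℝ) : ℂ) * w‖ :=
    dist_zero_right _
  show √(dist (((2 / (1 + ‖w‖ ^ 2) : ℝ) : ℂ) * w) 0 ^ 2 +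
    |(‖w‖ ^ 2 - 1) / (1 + ‖w‖ ^ 2) - 1| ^ 2) = _
  rw [e3, e1, e2, ← add_div, show 4 * ‖w‖ ^ 2 + 4 = 2 ^ 2 * (1 + ‖w‖ ^ 2) by ring]
  rw [show 2 ^ 2 * (1 + ‖w‖ ^ 2) / (1 + ‖w‖ ^ 2) ^ 2 = 2 ^ 2 / (1 + ‖w‖ ^ 2) by field_simp]
  rw [Real.sqrt_div (by positivity), Real.sqrt_sq (by norm_num)]

lemma chord_infty_le {w : ℂ} {R : ℝ} (hR : 0 < R) (h : R ≤ ‖w‖) :
    chord (w : OnePoint ℂ) OnePoint.infty ≤ 2 / R := by
  rw [chord_infty]
  apply div_le_div_of_nonneg_left (by norm_num) hR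
  apply Real.le_sqrt_of_sq_le
  nlinarith

lemma le_chord_infty {w : ℂ} (h : ‖w‖ ≤ 2) : 4 / 5 ≤ chord (w : OnePoint ℂ) OnePoint.infty := by
  rw [chord_infty, le_div_iff₀ (by positivity)]
  have h1 : √(1 + ‖w‖ ^ 2) ≤ 5 / 2 := by
    apply Real.sqrt_le_iff.2 ⟨by norm_num, ?_⟩
    have := norm_nonneg w
    nlinarith
  linarith

lemma chord_self (p : OnePoint ℂ) : chord p p = 0 := dist_self _

lemma chord_comm (p q : OnePoint ℂ) : chord p q = chord q p := dist_comm _ _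

lemma chord_triangle (p q r : OnePoint ℂ) : chord p r ≤ chord p q + chord q r :=
  dist_triangle _ _ _

lemma continuous_stereo_coe : Continuous fun z : ℂ => stereo (z : OnePoint ℂ) := by
  have h : (fun z : ℂ => stereo (z : OnePoint ℂ)) = fun z => WithLp.toLp 2
      (((2 / (1 + ‖z‖ ^ 2) : ℝ) : ℂ) * z, (‖z‖ ^ 2 - 1) / (1 + ‖z‖ ^ 2)) := rfl
  rw [h]
  have hne : ∀ z : ℂ, (1 + ‖z‖ ^ 2) ≠ 0 := fun z => by positivity
  apply (WithLp.prod_continuous_toLp 2 ℂ ℝ).comp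
  apply Continuous.prodMk
  · exact (Complex.continuous_ofReal.comp (continuous_const.div (by fun_prop) hne)).mul
      continuous_id
  · exact Continuous.div (by fun_prop) (by fun_prop) hne

/-! ## The example -/

open Pool.Agent.H12.GJ (gr hr gC hC fs Fs JS Kg K0 IC A0 B0 OP)

/-- The polynomials of the example. -/
noncomputable def fI (n : ℕ) : ℂ[X] := fs (n - 1)

lemma regular_fI : Regular fI := by
  obtain ⟨A₁, A₂, A₃, h1, h2, h3, h⟩ := Pool.Agent.H12.GJ.fs_regular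
  refine ⟨fun n _ => (h _).1, A₁, A₂ + 1, A₃, h1, by linarith, h3, fun n _ => ?_⟩
  obtain ⟨k1, k2, k3, k4⟩ := h (n - 1)
  refine ⟨k2, k4, fun j _ => (k3 j).trans ?_⟩
  have := norm_nonneg (fs (n - 1)).leadingCoeff
  unfold fI
  nlinarith

lemma comps_coe (n : ℕ) (z : ℂ) : comps fI n (z : OnePoint ℂ) = ((Fs n z : ℂ) : OnePoint ℂ) := by
  induction n with
  | zero => rfl
  | succ n ih =>
    show OnePoint.map (fun z : ℂ => (fI (n + 1)).eval z) (comps fI n z) = _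
    rw [ih, OnePoint.map_some]
    rfl

lemma comps_infty (n : ℕ) : comps fI n OnePoint.infty = OnePoint.infty := by
  induction n with
  | zero => rfl
  | succ n ih =>
    show OnePoint.map (fun z : ℂ => (fI (n + 1)).eval z) (comps fI n OnePoint.infty) = _
    rw [ih, OnePoint.map_infty]

lemma continuous_Fs (n : ℕ) : Continuous (Fs n) := by
  induction n with
  | zero => exact continuous_id
  | succ n ih => exact (fs n).continuous.comp ih

lemma infDist_ge {w : ℂ} : ‖w‖ - 19 / 10 ≤ Metric.infDist w IC := by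
  obtain ⟨y, hy, hd⟩ := Pool.Agent.H12.GJ.IC_compact.exists_infDist_eq_dist
    Pool.Agent.H12.GJ.IC_nonempty w
  obtain ⟨x, hx, rfl⟩ := hy
  rw [hd, dist_eq_norm]
  have h1 : ‖(x : ℂ)‖ ≤ 19 / 10 := by
    rw [Complex.norm_real, Real.norm_eq_abs, abs_le]
    constructor <;> linarith [hx.1, hx.2]
  have h2 := norm_sub_norm_le w (x : ℂ)
  linarith

lemma infDist_le {w : ℂ} : Metric.infDist w IC ≤ ‖w‖ := by
  have h : (0 : ℂ) ∈ IC := ⟨0, by norm_num, by simp⟩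
  have := Metric.infDist_le_dist_of_mem (x := w) h
  rwa [dist_zero_right] at this

/-- The points that have escaped at time `n + 1`. -/
def V (n : ℕ) : Set (OnePoint ℂ) :=
  {p | p = OnePoint.infty ∨ ∃ z : ℂ, p = (z : OnePoint ℂ) ∧ 1 < Metric.infDist (Fs (n + 1) z) IC}

lemma coe_mem_V {n : ℕ} {z : ℂ} : (z : OnePoint ℂ) ∈ V n ↔
    1 < Metric.infDist (Fs (n + 1) z) IC := by
  constructor
  · rintro (h | ⟨w, h, hw⟩)
    · exact absurd h (OnePoint.coe_ne_infty z)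
    · rwa [OnePoint.coe_eq_coe.1 h]
  · intro h
    exact Or.inr ⟨z, rfl, h⟩

lemma hC_large {z : ℂ} (hz : 4 < ‖z‖) : 3 < ‖hC z‖ := by
  unfold Pool.Agent.H12.GJ.hC
  have h1 : ‖(17 / 20 : ℂ) * (z ^ 3 - 3 * z)‖ - ‖(1 / 5 : ℂ)‖ ≤
      ‖(17 / 20 : ℂ) * (z ^ 3 - 3 * z) - 1 / 5‖ := norm_sub_norm_le _ _
  have h2 : ‖z ^ 3‖ - ‖3 * z‖ ≤ ‖z ^ 3 - 3 * z‖ := norm_sub_norm_le _ _
  rw [norm_mul] at h1
  have e1 : ‖(17 / 20 : ℂ)‖ = 17 / 20 := by norm_num
  have e2 : ‖(1 / 5 : ℂ)‖ = 1 / 5 := by norm_num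
  rw [e1, e2] at h1
  rw [norm_pow, norm_mul] at h2
  have e3 : ‖(3 : ℂ)‖ = 3 := by norm_num
  rw [e3] at h2
  have h3 : 13 * ‖z‖ ≤ ‖z‖ ^ 3 - 3 * ‖z‖ := by nlinarith [mul_pos (show 0 < ‖z‖ by linarith) (show 0 < ‖z‖ - 4 by linarith)]
  nlinarith

lemma isOpen_V (n : ℕ) : IsOpen (V n) := by
  rw [OnePoint.isOpen_iff_of_mem (s := V n) (Or.inl rfl)]
  have he : ((↑) ⁻¹' V n : Set ℂ)ᶜ = {z : ℂ | Metric.infDist (Fs (n + 1) z) IC ≤ 1} := by
    ext z
    rw [mem_compl_iff, mem_preimage, coe_mem_V, not_lt]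
    rfl
  rw [he]
  have hcl : IsClosed {z : ℂ | Metric.infDist (Fs (n + 1) z) IC ≤ 1} :=
    isClosed_le ((Metric.continuous_infDist_pt IC).comp (continuous_Fs _)) continuous_const
  refine ⟨hcl, Metric.isCompact_of_isClosed_isBounded hcl ?_⟩
  rw [isBounded_iff_forall_norm_le]
  refine ⟨4, fun z hz => ?_⟩
  by_contra hcon
  push Not at hcon
  have h1 := hC_large hcon
  have h2 : Metric.infDist (Fs (n + 1) z) IC ≤ 1 := hz
  rw [Pool.Agent.H12.GJ.Fs_succ] at h2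
  have h3 := Pool.Agent.H12.GJ.expand_iter n (hC z)
  have h4 : ‖hC z‖ - 19 / 10 ≤ Metric.infDist (hC z) IC := infDist_ge
  have h5 : (1 : ℝ) ≤ 25 ^ n := one_le_pow₀ (by norm_num)
  nlinarith

lemma Fs_far {N k : ℕ} {z : ℂ} (h : 1 < Metric.infDist (Fs (N + 1) z) IC) :
    25 ^ k ≤ Metric.infDist (Fs (N + k + 1) z) IC := by
  rw [Pool.Agent.H12.GJ.Fs_succ] at h ⊢
  rw [add_comm N k, Function.iterate_add_apply]
  have h1 := Pool.Agent.H12.GJ.expand_iter k (gC^[N] (hC z))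
  have h2 : (0 : ℝ) < 25 ^ k := by positivity
  nlinarith

lemma V_mono : Monotone V := by
  intro n m hnm p hp
  obtain ⟨k, rfl⟩ := Nat.exists_eq_add_of_le hnm
  rcases hp with h | ⟨z, rfl, hz⟩
  · exact Or.inl h
  · rcases Nat.eq_zero_or_pos k with hk | hk
    · subst hk; exact Or.inr ⟨z, rfl, hz⟩
    · refine Or.inr ⟨z, rfl, lt_of_lt_of_le ?_ (Fs_far (k := k) hz)⟩
      exact one_lt_pow₀ (by norm_num) (by omega)

/-- The image of the real Julia set in the sphere. -/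
def KS : Set (OnePoint ℂ) := (fun x : ℝ => ((x : ℂ) : OnePoint ℂ)) '' K0

lemma V_cover : KSᶜ ⊆ ⋃ n, V n := by
  intro p hp
  rw [mem_iUnion]
  induction p using OnePoint.rec with
  | infty => exact ⟨0, Or.inl rfl⟩
  | coe z =>
    have hz : z ∉ {z : ℂ | ∃ M : ℝ, ∀ n, ‖Fs n z‖ ≤ M} := by
      rw [Pool.Agent.H12.GJ.filled_eq]
      rintro ⟨x, hx, rfl⟩
      exact hp ⟨x, hx, rfl⟩
    have hz' : ∀ M : ℝ, ∃ n, M < ‖Fs n z‖ := by
      intro M
      by_contra hcon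
      push Not at hcon
      exact hz ⟨M, hcon⟩
    obtain ⟨n, hn⟩ := hz' (max 4 ‖z‖)
    rcases n with _ | n
    · exact absurd hn (not_lt.2 (le_max_right _ _))
    · refine ⟨n, coe_mem_V.2 ?_⟩
      have h1 := infDist_ge (w := Fs (n + 1) z)
      have h2 := le_max_left 4 ‖z‖
      linarith

lemma isClosed_KS : IsClosed KS := by
  have h : Continuous fun x : ℝ => ((x : ℂ) : OnePoint ℂ) :=
    OnePoint.continuous_coe.comp Complex.continuous_ofReal
  exact (Pool.Agent.H12.GJ.K0_compact.image h).isClosed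

lemma chord_far {N n : ℕ} {p : OnePoint ℂ} (hp : p ∈ V N) (hn : N < n) :
    chord (comps fI n p) OnePoint.infty ≤ 2 / 25 ^ (n - 1 - N) := by
  obtain ⟨k, rfl⟩ : ∃ k, n = N + k + 1 := ⟨n - 1 - N, by omega⟩
  have hk : N + k + 1 - 1 - N = k := by omega
  rw [hk]
  rcases hp with h | ⟨z, rfl, hz⟩
  · rw [h, comps_infty, chord_self]; positivity
  · rw [comps_coe]
    exact chord_infty_le (by positivity) ((Fs_far (k := k) hz).trans infDist_le)

/-- Uniform escape on compact sets. -/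
lemma escape {C : Set (OnePoint ℂ)} (hC : IsCompact C) (hsub : C ⊆ KSᶜ) {ε : ℝ} (hε : 0 < ε) :
    ∃ N, ∀ n ≥ N, ∀ p ∈ C, chord (comps fI n p) OnePoint.infty < ε := by
  obtain ⟨N, hN⟩ := hC.elim_directed_cover V isOpen_V (hsub.trans V_cover) V_mono.directed_le
  obtain ⟨k, hk⟩ := exists_pow_lt_of_lt_one (show 0 < ε / 2 by positivity)
    (show (1 / 25 : ℝ) < 1 by norm_num)
  refine ⟨N + k + 1, fun n hn p hp => lt_of_le_of_lt (chord_far (hN hp) (by omega)) ?_⟩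
  have h1 : (1 / 25 : ℝ) ^ (n - 1 - N) ≤ (1 / 25) ^ k :=
    pow_le_pow_of_le_one (by norm_num) (by norm_num) (by omega)
  have h2 : (2 : ℝ) / 25 ^ (n - 1 - N) = 2 * (1 / 25) ^ (n - 1 - N) := by
    rw [one_div, inv_pow]; rfl
  rw [h2]
  linarith

lemma normal_compl : NormalOn (comps fI) KSᶜ := by
  intro φ hφ
  obtain ⟨g, hg⟩ := exists_increasing_or_nonincreasing_subseq (· < ·) φ
  rcases hg with hg | hg
  · refine ⟨g, g.strictMono, fun _ => OnePoint.infty, fun C hC hCc ε hε => ?_⟩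
    obtain ⟨N, hN⟩ := escape hCc hC hε
    have hmono : StrictMono fun k => φ (g k) := fun a b hab => hg a b hab
    exact ⟨N, fun k hk p hp => hN _ (hk.trans hmono.le_apply) p hp⟩
  · obtain ⟨N, hN⟩ : ∃ N, ∀ k, φ (g N) ≤ φ (g k) := by
      have hne : (range fun k => φ (g k)).Nonempty := range_nonempty _
      obtain ⟨N, hN⟩ := Nat.sInf_mem hne
      refine ⟨N, fun k => ?_⟩
      have : φ (g N) = sInf (range fun k => φ (g k)) := hN
      rw [this]
      exact Nat.sInf_le ⟨k, rfl⟩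
    refine ⟨g, g.strictMono, comps fI (φ (g N)), fun C _ _ ε hε => ⟨N, fun k hk p _ => ?_⟩⟩
    have he : φ (g k) = φ (g N) := by
      rcases eq_or_lt_of_le hk with h | h
      · rw [h]
      · exact le_antisymm (not_lt.1 (hg N k h)) (hN k)
    rw [he, chord_self]
    exact hε

lemma Fs_bdd {x : ℝ} (hx : x ∈ K0) (n : ℕ) : ‖Fs n (x : ℂ)‖ ≤ 2 := by
  cases n with
  | zero =>
    rw [Fs, Complex.norm_real, Real.norm_eq_abs, abs_le]
    exact ⟨(Pool.Agent.H12.GJ.K0_sub hx).1, (Pool.Agent.H12.GJ.K0_sub hx).2⟩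
  | succ n =>
    rw [Pool.Agent.H12.GJ.Fs_succ, Pool.Agent.H12.GJ.hC_ofReal,
      Pool.Agent.H12.GJ.gC_iter_ofReal, Complex.norm_real, Real.norm_eq_abs, abs_le]
    have := hx n
    exact ⟨by linarith [this.1], by linarith [this.2]⟩

lemma not_normal {x : ℝ} (hx : x ∈ K0) {U : Set (OnePoint ℂ)} (hU : IsOpen U)
    (hxU : ((x : ℂ) : OnePoint ℂ) ∈ U) : ¬ NormalOn (comps fI) U := by
  intro hN
  obtain ⟨ψ, hψ, g, hg⟩ := hN (fun k => k + 1) (fun k => by omega)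
  have hU' : (↑) ⁻¹' U ∈ 𝓝 (x : ℂ) := (hU.preimage OnePoint.continuous_coe).mem_nhds hxU
  obtain ⟨r, hr, hball⟩ := Metric.nhds_basis_closedBall.mem_iff.1 hU'
  obtain ⟨N, hN⟩ := hg ((↑) '' Metric.closedBall (x : ℂ) r) (image_subset_iff.2 hball)
    ((isCompact_closedBall _ _).image OnePoint.continuous_coe) (1 / 10) (by norm_num)
  have hcont : ContinuousAt (fun z : ℂ => stereo ((Fs (ψ N + 1) z : ℂ) : OnePoint ℂ)) (x : ℂ) :=
    (continuous_stereo_coe.comp (continuous_Fs _)).continuousAt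
  obtain ⟨δ, hδ, hδ'⟩ := Metric.continuousAt_iff.1 hcont (1 / 10) (by norm_num)
  set t : ℝ := min r δ / 2 with ht
  have ht0 : 0 < t := by have := lt_min hr hδ; positivity
  have htr : t < r := by have := min_le_left r δ; linarith [lt_min hr hδ]
  have htδ : t < δ := by have := min_le_right r δ; linarith [lt_min hr hδ]
  set z : ℂ := (x : ℂ) + (t : ℂ) * Complex.I with hz
  have hdist : dist z (x : ℂ) = t := by
    rw [dist_eq_norm, hz, add_sub_cancel_left, norm_mul, Complex.norm_I, mul_one,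
      Complex.norm_real, Real.norm_eq_abs, abs_of_pos ht0]
  have hzC : (z : OnePoint ℂ) ∈ ((↑) '' Metric.closedBall (x : ℂ) r : Set (OnePoint ℂ)) :=
    ⟨z, by rw [Metric.mem_closedBall, hdist]; exact htr.le, rfl⟩
  have hzK : (z : OnePoint ℂ) ∈ KSᶜ := by
    rintro ⟨y, _, hy⟩
    have h1 : (y : ℂ) = z := OnePoint.coe_eq_coe.1 hy
    have h2 := congrArg Complex.im h1
    rw [hz] at h2
    simp at h2
    linarith
  obtain ⟨N', hN'⟩ := escape (C := {(z : OnePoint ℂ)}) isCompact_singleton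
    (singleton_subset_iff.2 hzK) (show (0 : ℝ) < 1 / 10 by norm_num)
  have a1 := le_chord_infty (Fs_bdd hx (ψ N + 1))
  have a2 : chord ((Fs (ψ N + 1) z : ℂ) : OnePoint ℂ) ((Fs (ψ N + 1) (x : ℂ) : ℂ) : OnePoint ℂ) <
      1 / 10 := hδ' (by rw [hdist]; exact htδ)
  have a3 := hN N le_rfl z hzC
  have a4 := hN (max N N') (le_max_left _ _) z hzC
  have a5 := hN' (ψ (max N N') + 1)
    (le_trans (le_max_right N N') (hψ.le_apply.trans (Nat.le_succ _))) z (mem_singleton _)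
  rw [comps_coe] at a3
  have b1 := chord_triangle ((Fs (ψ N + 1) (x : ℂ) : ℂ) : OnePoint ℂ)
    ((Fs (ψ N + 1) z : ℂ) : OnePoint ℂ) OnePoint.infty
  have b2 := chord_triangle ((Fs (ψ N + 1) z : ℂ) : OnePoint ℂ) (g z) OnePoint.infty
  have b3 := chord_triangle (g z) (comps fI (ψ (max N N') + 1) z) OnePoint.infty
  rw [chord_comm] at a2
  rw [chord_comm] at a4
  linarith

theorem julia_eq : julia fI = KS := by
  ext p
  constructor
  · intro hp
    by_contra hcon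
    exact hp ⟨KSᶜ, isClosed_KS.isOpen_compl, hcon, normal_compl⟩
  · rintro ⟨x, hx, rfl⟩ ⟨U, hU, hxU, hN⟩
    exact not_normal hx hU hxU hN

/-! ## Assembly -/

/-- The recurrence coefficients `a`. -/
noncomputable def aI (n : ℕ) : ℝ := Real.sqrt (A0 n)

/-- The recurrence coefficients `b`. -/
noncomputable def bI (n : ℕ) : ℝ := B0 (n - 1)

lemma recurrence_I : IsRecurrence Pool.Agent.H15.GJ.m0 aI bI := by
  refine ⟨fun n hn => ?_, OP A0 B0, fun n => (Pool.Agent.H11.INS.OP_monic A0 B0 n).1,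
    Pool.Agent.H11.INS.orth_m0, ?_, fun n hn => ?_⟩
  · obtain ⟨k, rfl⟩ : ∃ k, n = k + 1 := ⟨n - 1, by omega⟩
    exact Real.sqrt_pos.2 (Pool.Agent.H12.GJ.A0_pos k)
  · rw [Pool.Agent.H12.GJ.OP_zero, Pool.Agent.H12.GJ.OP_one]
    simp [bI]
  · obtain ⟨k, rfl⟩ : ∃ k, n = k + 1 := ⟨n - 1, by omega⟩
    rw [Pool.Agent.H12.GJ.OP_succ, aI, Real.sq_sqrt (Pool.Agent.H12.GJ.A0_pos k).le]
    simp only [bI, Nat.add_sub_cancel]
    ring

lemma equilibrium_I : IsEquilibrium (Complex.ofReal '' K0)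
    (Pool.Agent.H15.GJ.m0.map Complex.ofReal) := by
  rw [← Pool.Agent.H12.GJ.JS_eq]
  refine ⟨(inferInstance : IsProbabilityMeasure Pool.Agent.H15.GJ.mu),
    Pool.Agent.H11.INS.mu_zero, Pool.Agent.H11.INS.energy_fin, fun ν hν hν0 hne => ?_⟩
  exact lt_of_not_ge fun h => hne (Pool.Agent.H11.INS.energy_uniq ν hν0 h)

lemma not_aap_I : ¬ AsympAlmostPeriodic bI := by
  rintro ⟨d, hd, hlim⟩
  refine Pool.Agent.H12.GJ.B0_not_aap ⟨fun k => d (k + 1), fun ε hε => ?_, ?_⟩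
  · obtain ⟨L, hL⟩ := bohr hd ε hε
    refine ⟨L, fun m => ?_⟩
    obtain ⟨τ, h1, h2, h3⟩ := hL m
    refine ⟨τ, h1, h2, fun k => ?_⟩
    have := h3 (k + 1)
    rwa [show k + 1 + τ = k + τ + 1 by ring] at this
  · have h := (tendsto_add_atTop_iff_nat 1).2 hlim
    refine h.congr fun n => ?_
    simp [bI]

end Pool.Agent.H11.INS
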